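import Pool.Agent.R550.DG.Main

set_option autoImplicit false

/-!
# Dense Graph Partition has no polynomial-time approximation scheme unless `P = NP`

Definitions: `Pool/Agent/R550/MD/Defs.lean` (`graph`), `Pool/Agent/R550/DG/Defs.lean` (`edgesIn`,
`density`, `ofColours`, `Approx`), `Pool/Agent/NPC/Defs.lean` (`PolyTime`, `InNP`, `bits`) and
`Pool/Agent/NPC/Classes.lean` (`InP`).

Proof. Reduction from the gap version of 3SAT with boundedly many occurrences (PCP theorem). Every
variable has an even cycle (ring), each edge of the cycle has a tip, a vertex which forms a triangle
with the edge; the tips of the one of the two perfect matchings of the cycle which is not used are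
free. Every clause has three pairs of adjacent vertices; the first pair forms a triangle with those
tips which belong to the literals of the clause, the other two with all tips of the clause. A part
which is not a triangle with exactly one tip has at most `31 / 96` times its size as density, while a
triangle has `32 / 96` times its size; so the density is `(number of vertices) / 3` if the graph is
partitioned into such triangles, and less otherwise.
-/

namespace Pool.Agent.Results.MP_0b8c1e_lc.NoPTAS

open Pool.Agent.NPC Pool.Agent.R550.DG
open Pool.Agent.R550.MD (graph)

/-- There is a real number `ε > 0` such that the following holds. (1) For every language `L` in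
`NP` there are functions `f`, `k`, computable in polynomial time, which map every word `x` to a
graph `f x` and a number `k x` such that some partition of the vertices of the graph has density at
least `k x` if `x` is in `L`, and every partition has density less than `(1 - ε) * k x` if `x` is not
in `L`. (2) If some polynomial-time algorithm finds for every graph a partition whose density is at
least `1 - ε` times the maximum, then `P = NP`. -/
theorem result : ∃ ε : ℝ, 0 < ε ∧
    (∀ L : Set (List Bool), InNP L → ∃ (f : List Bool → List (List ℕ)) (k : List Bool → ℕ),
      PolyTime (fun x => bits (f x, k x)) ∧ ∀ x,
        (x ∈ L → ∃ π : Finpartition (Finset.univ : Finset (Fin (f x).length)),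
          (k x : ℝ) ≤ density (graph (f x)) π) ∧
        (x ∉ L → ∀ π : Finpartition (Finset.univ : Finset (Fin (f x).length)),
          density (graph (f x)) π < (1 - ε) * k x)) ∧
    (Approx (1 - ε) → ∀ L : Set (List Bool), InNP L → InP L) := by
  refine ⟨gp, gp_pos, fun L hL => ?_, fun h L hL => collapse h hL⟩
  obtain ⟨f, k, hfk, hx⟩ := gapDG hL
  exact ⟨f, k, polyTime_bits hfk, hx⟩

end Pool.Agent.Results.MP_0b8c1e_lc.NoPTAS
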